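import Pool.Agent.Lib.MP_2d002d_gt.Interfaces

/-!
# MP_2d002d_gt, module M11a (helper34): approximation of log-concave profiles
-/

set_option autoImplicit false

open MeasureTheory Set Filter Topology
open scoped ContDiff ENNReal Pointwise

namespace Pool.Agent.Lib.MP_2d002d_gt

namespace H34

/-! ## Log-sum-exp functions -/

section LSE

variable (M : ℕ) (a b : ℕ → ℝ)

/-- `∑ b_j^k exp (a_j + b_j s)` -/
noncomputable def ZZ (k : ℕ) (s : ℝ) : ℝ :=
  ∑ j ∈ Finset.range (M + 1), b j ^ k * Real.exp (a j + b j * s)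

theorem ZZ_pos (s : ℝ) : 0 < ZZ M a b 0 s :=
  Finset.sum_pos (fun j _ => by positivity) ⟨0, Finset.mem_range.mpr (Nat.succ_pos M)⟩

theorem ZZ_hasDerivAt (k : ℕ) (s : ℝ) : HasDerivAt (ZZ M a b k) (ZZ M a b (k + 1) s) s := by
  unfold ZZ
  refine HasDerivAt.fun_sum fun j _ => ?_
  have h1 : HasDerivAt (fun s : ℝ => a j + b j * s) (b j) s := by
    simpa using ((hasDerivAt_id s).const_mul (b j)).const_add (a j)
  have h2 := (h1.exp).const_mul (b j ^ k)
  refine h2.congr_deriv ?_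
  ring

theorem ZZ_contDiff (k : ℕ) : ContDiff ℝ ∞ (ZZ M a b k) := by
  unfold ZZ
  fun_prop

/-- the profile -/
noncomputable def AA (s : ℝ) : ℝ :=
  Real.log (ZZ M a b 0 s) / (M + 1) + s / (M + 1)

theorem deriv_AA : deriv (AA M a b) =
    fun s => ZZ M a b 1 s / ZZ M a b 0 s / (M + 1) + 1 / (M + 1) := by
  funext s
  have h1 := (ZZ_hasDerivAt M a b 0 s).log (ZZ_pos M a b s).ne'
  have h2 := (h1.div_const ((M : ℝ) + 1)).add ((hasDerivAt_id s).div_const ((M : ℝ) + 1))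
  exact h2.deriv

theorem deriv2_AA : deriv (deriv (AA M a b)) =
    fun s => (ZZ M a b 2 s * ZZ M a b 0 s - ZZ M a b 1 s * ZZ M a b 1 s) /
      ZZ M a b 0 s ^ 2 / (M + 1) := by
  rw [deriv_AA]
  funext s
  have h1 := (ZZ_hasDerivAt M a b 1 s).div (ZZ_hasDerivAt M a b 0 s) (ZZ_pos M a b s).ne'
  have h2 := (h1.div_const ((M : ℝ) + 1)).add_const (1 / ((M : ℝ) + 1))
  exact h2.deriv

theorem adm_AA (hb : ∀ j, 0 ≤ b j) : Adm (AA M a b) := by
  have hM : (0 : ℝ) < (M : ℝ) + 1 := by positivity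
  set B : ℝ := ∑ j ∈ Finset.range (M + 1), b j with hB
  have hB0 : 0 ≤ B := Finset.sum_nonneg fun j _ => hb j
  have hbB : ∀ j ∈ Finset.range (M + 1), b j ≤ B := fun j hj =>
    Finset.single_le_sum (f := b) (fun i _ => hb i) hj
  have hnn : ∀ k s, 0 ≤ ZZ M a b k s := fun k s =>
    Finset.sum_nonneg fun j _ => mul_nonneg (pow_nonneg (hb j) k) (Real.exp_pos _).le
  have hup : ∀ k s, ZZ M a b (k + 1) s ≤ B * ZZ M a b k s := by
    intro k s
    unfold ZZ
    rw [Finset.mul_sum]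
    refine Finset.sum_le_sum fun j hj => ?_
    have h1 := hbB j hj
    have h2 : 0 ≤ b j ^ k * Real.exp (a j + b j * s) :=
      mul_nonneg (pow_nonneg (hb j) k) (Real.exp_pos _).le
    calc b j ^ (k + 1) * Real.exp (a j + b j * s)
        = b j * (b j ^ k * Real.exp (a j + b j * s)) := by ring
      _ ≤ B * (b j ^ k * Real.exp (a j + b j * s)) := mul_le_mul_of_nonneg_right h1 h2
  have hCS : ∀ s, ZZ M a b 1 s * ZZ M a b 1 s ≤ ZZ M a b 2 s * ZZ M a b 0 s := by
    intro s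
    have h := Finset.sum_mul_sq_le_sq_mul_sq (Finset.range (M + 1))
      (fun j => b j * Real.exp ((a j + b j * s) / 2)) (fun j => Real.exp ((a j + b j * s) / 2))
    have he : ∀ j, Real.exp ((a j + b j * s) / 2) * Real.exp ((a j + b j * s) / 2) =
        Real.exp (a j + b j * s) := by
      intro j
      rw [← Real.exp_add]
      congr 1
      ring
    have e1 : ∀ j, b j * Real.exp ((a j + b j * s) / 2) * Real.exp ((a j + b j * s) / 2) =
        b j ^ 1 * Real.exp (a j + b j * s) := by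
      intro j
      rw [mul_assoc, he, pow_one]
    have e2 : ∀ j, (b j * Real.exp ((a j + b j * s) / 2)) ^ 2 =
        b j ^ 2 * Real.exp (a j + b j * s) := by
      intro j
      rw [mul_pow, sq (Real.exp _), he]
    have e3 : ∀ j, (Real.exp ((a j + b j * s) / 2)) ^ 2 =
        b j ^ 0 * Real.exp (a j + b j * s) := by
      intro j
      rw [sq, he, pow_zero, one_mul]
    simp only [e1, e2, e3] at h
    unfold ZZ
    rw [← sq]
    exact h
  refine ⟨?_, ⟨1 / (M + 1), by positivity, fun s _ => ?_⟩, ⟨B / (M + 1) + 1 / (M + 1), fun s _ => ?_⟩,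
    fun s _ => ?_, ⟨B ^ 2 / (M + 1), fun s _ => ?_⟩⟩
  · unfold AA
    exact ((ZZ_contDiff M a b 0).log (fun s => (ZZ_pos M a b s).ne')).div_const _ |>.add
      (contDiff_id.div_const _)
  · rw [deriv_AA]
    have h1 : 0 ≤ ZZ M a b 1 s / ZZ M a b 0 s / (M + 1) :=
      div_nonneg (div_nonneg (hnn 1 s) (hnn 0 s)) hM.le
    change 1 / ((M : ℝ) + 1) ≤ ZZ M a b 1 s / ZZ M a b 0 s / (M + 1) + 1 / (M + 1)
    linarith
  · rw [deriv_AA]
    have h1 : ZZ M a b 1 s / ZZ M a b 0 s ≤ B := by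
      rw [div_le_iff₀ (ZZ_pos M a b s)]
      exact hup 0 s
    change ZZ M a b 1 s / ZZ M a b 0 s / (M + 1) + 1 / (M + 1) ≤ _
    have h2 := div_le_div_of_nonneg_right h1 hM.le
    linarith
  · rw [deriv2_AA]
    refine div_nonneg (div_nonneg ?_ (sq_nonneg _)) hM.le
    linarith [hCS s]
  · rw [deriv2_AA]
    refine div_le_div_of_nonneg_right ?_ hM.le
    have hZ := ZZ_pos M a b s
    rw [div_le_iff₀ (by positivity)]
    have h1 := hup 1 s
    have h2 := hup 0 s
    have h3 : ZZ M a b 2 s ≤ B ^ 2 * ZZ M a b 0 s := by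
      calc ZZ M a b 2 s ≤ B * ZZ M a b 1 s := h1
        _ ≤ B * (B * ZZ M a b 0 s) := mul_le_mul_of_nonneg_left h2 hB0
        _ = _ := by ring
    have h4 : ZZ M a b 2 s * ZZ M a b 0 s ≤ B ^ 2 * ZZ M a b 0 s * ZZ M a b 0 s :=
      mul_le_mul_of_nonneg_right h3 hZ.le
    nlinarith [mul_self_nonneg (ZZ M a b 1 s)]

end LSE

/-! ## Support lines -/

/-- rational lines below `-log g` with nonnegative slope -/
def LL (g : ℝ → ℝ) : Set (ℚ × ℚ) :=
  {l | 0 ≤ l.2 ∧ ∀ s, 0 ≤ s → 0 < g s → (l.1 : ℝ) + l.2 * s ≤ -Real.log (g s)}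

variable {g : ℝ → ℝ}

theorem exists_support (h1 : ∀ s t, 0 ≤ s → s ≤ t → g t ≤ g s)
    (h2 : ∀ x y t : ℝ, 0 ≤ x → 0 ≤ y → 0 ≤ t → t ≤ 1 →
        g x ^ t * g y ^ (1 - t) ≤ g (t * x + (1 - t) * y))
    {s₀ q : ℝ} (hs₀ : 0 < s₀) (hq : s₀ < q) (hgq : 0 < g q) :
    ∃ κ : ℝ, 0 ≤ κ ∧ ∀ s, 0 ≤ s → 0 < g s →
      -Real.log (g s₀) + κ * (s - s₀) ≤ -Real.log (g s) := by
  have hg₀ : 0 < g s₀ := hgq.trans_le (h1 _ _ hs₀.le hq.le)
  set φ : ℝ → ℝ := fun s => -Real.log (g s) with hφ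
  set T : Set ℝ := {k | ∃ r, s₀ < r ∧ 0 < g r ∧ k = (φ r - φ s₀) / (r - s₀)} with hT
  have hTne : T.Nonempty := ⟨_, q, hq, hgq, rfl⟩
  have hT0 : ∀ k ∈ T, 0 ≤ k := by
    rintro k ⟨r, hr, hgr, rfl⟩
    refine div_nonneg ?_ (sub_nonneg.mpr hr.le)
    have h3 := Real.log_le_log hgr (h1 _ _ hs₀.le hr.le)
    simp only [hφ]
    linarith
  have hbdd : BddBelow T := ⟨0, fun k hk => hT0 k hk⟩
  refine ⟨sInf T, le_csInf hTne hT0, fun s hs hgs => ?_⟩
  rcases lt_trichotomy s s₀ with hlt | rfl | hgt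
  · -- left of the point
    have h3 : (φ s₀ - φ s) / (s₀ - s) ≤ sInf T := by
      refine le_csInf hTne ?_
      rintro k ⟨r, hr, hgr, rfl⟩
      have hsr : 0 < r - s := by linarith
      set t : ℝ := (r - s₀) / (r - s) with ht
      have ht0 : 0 ≤ t := div_nonneg (by linarith) hsr.le
      have ht1 : t ≤ 1 := by
        rw [ht, div_le_one hsr]
        linarith
      have e1 : t * s + (1 - t) * r = s₀ := by
        rw [ht]
        field_simp
        ring
      have h4 := h2 s r t hs (by linarith) ht0 ht1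
      rw [e1] at h4
      have h5 := Real.log_le_log (mul_pos (Real.rpow_pos_of_pos hgs _)
        (Real.rpow_pos_of_pos hgr _)) h4
      rw [Real.log_mul (Real.rpow_pos_of_pos hgs _).ne' (Real.rpow_pos_of_pos hgr _).ne',
        Real.log_rpow hgs, Real.log_rpow hgr] at h5
      have h6 : φ s₀ ≤ t * φ s + (1 - t) * φ r := by
        simp only [hφ]
        linarith
      have h7 : (r - s) * φ s₀ ≤ (r - s₀) * φ s + (s₀ - s) * φ r := by
        have h8 := mul_le_mul_of_nonneg_left h6 hsr.le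
        have e2 : (r - s) * (t * φ s + (1 - t) * φ r) = (r - s₀) * φ s + (s₀ - s) * φ r := by
          rw [ht]
          field_simp
          ring
        rw [e2] at h8
        exact h8
      rw [div_le_div_iff₀ (by linarith) (by linarith)]
      nlinarith
    have h4 : φ s₀ - φ s ≤ sInf T * (s₀ - s) := by
      rwa [div_le_iff₀ (by linarith)] at h3
    simp only [hφ] at h4
    linarith
  · simp
  · have h3 : sInf T ≤ (φ s - φ s₀) / (s - s₀) := csInf_le hbdd ⟨s, hgt, hgs, rfl⟩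
    have h4 : sInf T * (s - s₀) ≤ φ s - φ s₀ := by
      rwa [le_div_iff₀ (by linarith)] at h3
    simp only [hφ] at h4
    linarith

theorem exists_line (h1 : ∀ s t, 0 ≤ s → s ≤ t → g t ≤ g s)
    (h2 : ∀ x y t : ℝ, 0 ≤ x → 0 ≤ y → 0 ≤ t → t ≤ 1 →
        g x ^ t * g y ^ (1 - t) ≤ g (t * x + (1 - t) * y))
    {s₀ q : ℝ} (hs₀ : 0 < s₀) (hq : s₀ < q) (hgq : 0 < g q) {ε : ℝ} (hε : 0 < ε) :
    ∃ l ∈ LL g, -Real.log (g s₀) - ε < (l.1 : ℝ) + l.2 * s₀ := by
  obtain ⟨κ, hκ, hs⟩ := exists_support h1 h2 hs₀ hq hgq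
  set η : ℝ := ε / (1 + s₀) with hη
  have hη0 : 0 < η := by positivity
  obtain ⟨α, hα1, hα2⟩ := exists_rat_btwn (sub_lt_self (-Real.log (g s₀) - κ * s₀) hη0)
  obtain ⟨k, hk0, hk1, hk2⟩ : ∃ k : ℚ, 0 ≤ k ∧ (k : ℝ) ≤ κ ∧ κ - η < k := by
    rcases hκ.eq_or_lt with h | h
    · refine ⟨0, le_rfl, ?_, ?_⟩
      · rw [← h]
        simp
      · rw [← h]
        push_cast
        linarith
    · obtain ⟨k, hk1, hk2⟩ := exists_rat_btwn (max_lt (sub_lt_self κ hη0) h)
      refine ⟨k, ?_, hk2.le, (le_max_left _ _).trans_lt hk1⟩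
      have h3 : (0 : ℝ) < k := (le_max_right _ _).trans_lt hk1
      exact_mod_cast h3.le
  refine ⟨(α, k), ⟨hk0, fun s hs0 hgs => ?_⟩, ?_⟩
  · have h3 := hs s hs0 hgs
    have h4 : (k : ℝ) * s ≤ κ * s := mul_le_mul_of_nonneg_right hk1 hs0
    change (α : ℝ) + (k : ℝ) * s ≤ _
    nlinarith
  · change _ < (α : ℝ) + (k : ℝ) * s₀
    have h4 : (κ - η) * s₀ < k * s₀ := mul_lt_mul_of_pos_right hk2 hs₀
    have h5 : η + η * s₀ = ε := by
      rw [hη]
      field_simp
    nlinarith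

/-! ## The theorem -/

theorem profLim : ProfLim := by
  intro g h0 h1 h2 h3
  obtain ⟨s₁, hs₁, hgs₁⟩ := h3
  -- an enumeration of the rational lines
  obtain ⟨l₀, hl₀, -⟩ := exists_line h1 h2 (s₀ := s₁ / 2) (q := s₁) (by linarith) (by linarith)
    hgs₁ one_pos
  obtain ⟨l, hl⟩ := (Set.to_countable (LL g)).exists_eq_range ⟨l₀, hl₀⟩
  have hlm : ∀ j, l j ∈ LL g := fun j => hl ▸ Set.mem_range_self j
  set A : ℕ → ℝ → ℝ := fun m => AA m (fun j => ((m : ℝ) + 1) * (l j).1)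
    (fun j => ((m : ℝ) + 1) * (l j).2) with hA
  have hb : ∀ (m : ℕ) j, (0 : ℝ) ≤ ((m : ℝ) + 1) * (l j).2 := by
    intro m j
    have h4 : (0 : ℝ) ≤ (l j).2 := by exact_mod_cast (hlm j).1
    exact mul_nonneg (by positivity) h4
  -- lower bound
  have hlow : ∀ m j s, j ≤ m → 0 ≤ s → ((l j).1 : ℝ) + (l j).2 * s ≤ A m s := by
    intro m j s hj hs
    have hM : (0 : ℝ) < (m : ℝ) + 1 := by positivity
    have h4 : Real.exp (((m : ℝ) + 1) * ((l j).1 + (l j).2 * s)) ≤
        ZZ m (fun j => ((m : ℝ) + 1) * (l j).1) (fun j => ((m : ℝ) + 1) * (l j).2) 0 s := by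
      unfold ZZ
      refine le_trans (le_of_eq ?_) (Finset.single_le_sum (f := fun j =>
        (((m : ℝ) + 1) * ((l j).2 : ℝ)) ^ 0 *
          Real.exp (((m : ℝ) + 1) * (l j).1 + ((m : ℝ) + 1) * (l j).2 * s))
        (fun i _ => by
          rw [pow_zero, one_mul]
          exact (Real.exp_pos _).le) (Finset.mem_range.mpr (Nat.lt_succ_of_le hj)))
      rw [pow_zero, one_mul]
      congr 1
      ring
    have h5 := Real.log_le_log (Real.exp_pos _) h4
    rw [Real.log_exp] at h5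
    simp only [hA, AA]
    have h6 : ((l j).1 : ℝ) + (l j).2 * s ≤ Real.log (ZZ m (fun j => ((m : ℝ) + 1) * (l j).1)
        (fun j => ((m : ℝ) + 1) * (l j).2) 0 s) / (m + 1) := by
      rw [le_div_iff₀ hM]
      linarith
    have h7 : 0 ≤ s / ((m : ℝ) + 1) := div_nonneg hs hM.le
    linarith
  -- upper bound
  have hupp : ∀ m s, 0 ≤ s → 0 < g s →
      A m s ≤ -Real.log (g s) + Real.log ((m : ℝ) + 1) / (m + 1) + s / (m + 1) := by
    intro m s hs hgs
    have hM : (0 : ℝ) < (m : ℝ) + 1 := by positivity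
    have h4 : ZZ m (fun j => ((m : ℝ) + 1) * (l j).1) (fun j => ((m : ℝ) + 1) * (l j).2) 0 s ≤
        ((m : ℝ) + 1) * Real.exp (((m : ℝ) + 1) * (-Real.log (g s))) := by
      unfold ZZ
      have h5 : ∀ j ∈ Finset.range (m + 1), (((m : ℝ) + 1) * ((l j).2 : ℝ)) ^ 0 *
          Real.exp (((m : ℝ) + 1) * (l j).1 + ((m : ℝ) + 1) * (l j).2 * s) ≤
          Real.exp (((m : ℝ) + 1) * (-Real.log (g s))) := by
        intro j _
        rw [pow_zero, one_mul]
        refine Real.exp_le_exp.mpr ?_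
        have h6 := (hlm j).2 s hs hgs
        nlinarith [mul_le_mul_of_nonneg_left h6 hM.le]
      refine (Finset.sum_le_sum h5).trans (le_of_eq ?_)
      rw [Finset.sum_const, Finset.card_range, nsmul_eq_mul]
      push_cast
      ring
    have h5 := Real.log_le_log (ZZ_pos _ _ _ s) h4
    rw [Real.log_mul hM.ne' (Real.exp_pos _).ne', Real.log_exp] at h5
    simp only [hA, AA]
    have h6 : Real.log (ZZ m (fun j => ((m : ℝ) + 1) * (l j).1)
        (fun j => ((m : ℝ) + 1) * (l j).2) 0 s) / (m + 1) ≤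
        -Real.log (g s) + Real.log ((m : ℝ) + 1) / (m + 1) := by
      rw [div_le_iff₀ hM, add_mul, div_mul_cancel₀ _ hM.ne']
      linarith
    linarith
  refine ⟨A, fun m => adm_AA m _ _ (hb m), ⟨Real.exp (-((l 0).1 : ℝ)), fun m s hs => ?_⟩, ?_⟩
  · refine Real.exp_le_exp.mpr ?_
    have h4 := hlow m 0 s (Nat.zero_le m) hs
    have h5 : (0 : ℝ) ≤ (l 0).2 := by exact_mod_cast (hlm 0).1
    have h6 := mul_nonneg h5 hs
    linarith
  · -- the exceptional set
    set E : Set ℝ := {x | 0 < g (x ^ 2) ∧ ∀ q, x ^ 2 < q → ¬ 0 < g q} with hE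
    have hEfin : E.Finite := by
      by_cases hne : E.Nonempty
      · obtain ⟨x₀, hx₀⟩ := hne
        refine Set.Finite.subset (Set.toFinite ({x₀, -x₀} : Set ℝ)) ?_
        intro x hx
        have h4 : x ^ 2 = x₀ ^ 2 := by
          rcases lt_trichotomy (x ^ 2) (x₀ ^ 2) with h | h | h
          · exact absurd hx₀.1 (hx.2 _ h)
          · exact h
          · exact absurd hx.1 (hx₀.2 _ h)
        rcases sq_eq_sq_iff_eq_or_eq_neg.mp h4 with h | h
        · exact Or.inl h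
        · exact Or.inr h
      · rw [Set.not_nonempty_iff_eq_empty.mp hne]
        exact Set.finite_empty
    have hnull : volume (E ∪ {0}) = 0 := (hEfin.union (Set.finite_singleton 0)).measure_zero volume
    have hae : ∀ᵐ x : ℝ, x ∉ E ∪ {0} := measure_eq_zero_iff_ae_notMem.mp hnull
    filter_upwards [hae] with x hx hgx
    have hx0 : x ≠ 0 := fun h => hx (Or.inr h)
    have hx2 : 0 < x ^ 2 := by positivity
    obtain ⟨q, hq, hgq⟩ : ∃ q, x ^ 2 < q ∧ 0 < g q := by
      by_contra hcon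
      push Not at hcon
      exact hx (Or.inl ⟨hgx, fun q hq => not_lt.mpr (hcon q hq)⟩)
    have hlim : Tendsto (fun m => A m (x ^ 2)) atTop (𝓝 (-Real.log (g (x ^ 2)))) := by
      rw [Metric.tendsto_atTop]
      intro ε hε
      obtain ⟨l', hl', hl'2⟩ := exists_line h1 h2 hx2 hq hgq hε
      rw [hl] at hl'
      obtain ⟨j, rfl⟩ := hl'
      have hlog : Tendsto (fun m : ℕ => Real.log ((m : ℝ) + 1) / ((m : ℝ) + 1)) atTop (𝓝 0) := by
        have h4 : Tendsto (fun y : ℝ => Real.log y / y) atTop (𝓝 0) :=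
          Real.isLittleO_log_id_atTop.tendsto_div_nhds_zero
        exact h4.comp (tendsto_atTop_add_const_right _ _ tendsto_natCast_atTop_atTop)
      have hdiv : Tendsto (fun m : ℕ => x ^ 2 / ((m : ℝ) + 1)) atTop (𝓝 0) :=
        tendsto_const_nhds.div_atTop
          (tendsto_atTop_add_const_right _ _ tendsto_natCast_atTop_atTop)
      have hsum := hlog.add hdiv
      rw [add_zero, Metric.tendsto_atTop] at hsum
      obtain ⟨N, hN⟩ := hsum ε hε
      refine ⟨max N j, fun m hm => ?_⟩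
      have h4 := hN m ((le_max_left _ _).trans hm)
      have h5 := hlow m j (x ^ 2) ((le_max_right _ _).trans hm) hx2.le
      have h6 := hupp m (x ^ 2) hx2.le hgx
      rw [Real.dist_eq, sub_zero, abs_lt] at h4
      rw [Real.dist_eq, abs_lt]
      constructor
      · linarith
      · linarith [h4.2]
    have h4 := (Real.continuous_exp.tendsto _).comp (hlim.neg)
    rw [neg_neg, Real.exp_log hgx] at h4
    exact h4

end H34

end Pool.Agent.Lib.MP_2d002d_gt
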